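import Mathlib

set_option linter.all false

/-!
# A four-element commutative associative ring without a finite basis of quasi-identities
-/

namespace Pool.Agent.Results.MP_db5ef1_al.NoFiniteBasis

/-- Terms in the ring signature `{+, -, 0, ·}` with variables indexed by the natural numbers. -/
inductive Term : Type
  | var : ℕ → Term
  | zero : Term
  | neg : Term → Term
  | add : Term → Term → Term
  | mul : Term → Term → Term

/-- The value of a term in a (not necessarily associative, not necessarily unital) ring. -/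
def Term.eval {R : Type} [NonUnitalNonAssocRing R] (v : ℕ → R) : Term → R
  | .var i => v i
  | .zero => 0
  | .neg t => - t.eval v
  | .add s t => s.eval v + t.eval v
  | .mul s t => s.eval v * t.eval v

/-- A quasi-identity: finitely many premises (equations between terms) and a conclusion. -/
structure QuasiId where
  prem : List (Term × Term)
  concl : Term × Term

/-- The quasi-identity `q` is true in the ring `R`. -/
def QuasiId.Holds (q : QuasiId) (R : Type) [NonUnitalNonAssocRing R] : Prop :=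
  ∀ v : ℕ → R, (∀ p ∈ q.prem, p.1.eval v = p.2.eval v) → q.concl.1.eval v = q.concl.2.eval v

/-- `A` has a finite basis of quasi-identities: a finite set `S` of quasi-identities true in `A`
such that every quasi-identity true in `A` holds in every ring in which all members of `S` are
true. -/
def HasFiniteBasis (A : Type) [NonUnitalNonAssocRing A] : Prop :=
  ∃ S : Set QuasiId, S.Finite ∧ (∀ q ∈ S, q.Holds A) ∧
    ∀ (B : Type) [NonUnitalNonAssocRing B], (∀ q ∈ S, q.Holds B) →
      ∀ q : QuasiId, q.Holds A → q.Holds B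

/-! ## Bounded variables -/

/-- all variables of the term are `< n`. -/
def Term.Bdd (n : ℕ) : Term → Prop
  | .var i => i < n
  | .zero => True
  | .neg t => t.Bdd n
  | .add s t => s.Bdd n ∧ t.Bdd n
  | .mul s t => s.Bdd n ∧ t.Bdd n

theorem Term.Bdd.mono {n m : ℕ} (h : n ≤ m) {t : Term} (ht : t.Bdd n) : t.Bdd m := by
  induction t with
  | var i => exact lt_of_lt_of_le ht h
  | zero => trivial
  | neg t ih => exact ih ht
  | add s t ihs iht => exact ⟨ihs ht.1, iht ht.2⟩
  | mul s t ihs iht => exact ⟨ihs ht.1, iht ht.2⟩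

theorem Term.exists_bdd (t : Term) : ∃ n, t.Bdd n := by
  induction t with
  | var i => exact ⟨i + 1, Nat.lt_succ_self i⟩
  | zero => exact ⟨0, trivial⟩
  | neg t ih => exact ih
  | add s t ihs iht =>
    obtain ⟨a, ha⟩ := ihs
    obtain ⟨b, hb⟩ := iht
    exact ⟨max a b, ha.mono (le_max_left _ _), hb.mono (le_max_right _ _)⟩
  | mul s t ihs iht =>
    obtain ⟨a, ha⟩ := ihs
    obtain ⟨b, hb⟩ := iht
    exact ⟨max a b, ha.mono (le_max_left _ _), hb.mono (le_max_right _ _)⟩

def QuasiId.Bdd (n : ℕ) (q : QuasiId) : Prop :=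
  (∀ p ∈ q.prem, p.1.Bdd n ∧ p.2.Bdd n) ∧ q.concl.1.Bdd n ∧ q.concl.2.Bdd n

theorem QuasiId.Bdd.mono {n m : ℕ} (h : n ≤ m) {q : QuasiId} (hq : q.Bdd n) : q.Bdd m :=
  ⟨fun p hp => ⟨(hq.1 p hp).1.mono h, (hq.1 p hp).2.mono h⟩, hq.2.1.mono h, hq.2.2.mono h⟩

theorem list_bdd (l : List (Term × Term)) : ∃ n, ∀ p ∈ l, p.1.Bdd n ∧ p.2.Bdd n := by
  induction l with
  | nil => exact ⟨0, by simp⟩
  | cons a l ih =>
    obtain ⟨n, hn⟩ := ih
    obtain ⟨i, hi⟩ := a.1.exists_bdd
    obtain ⟨j, hj⟩ := a.2.exists_bdd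
    refine ⟨max n (max i j), ?_⟩
    intro p hp
    rcases List.mem_cons.1 hp with rfl | hp
    · exact ⟨hi.mono (by omega), hj.mono (by omega)⟩
    · exact ⟨(hn p hp).1.mono (by omega), (hn p hp).2.mono (by omega)⟩

theorem QuasiId.exists_bdd (q : QuasiId) : ∃ n, q.Bdd n := by
  obtain ⟨n, hn⟩ := list_bdd q.prem
  obtain ⟨i, hi⟩ := q.concl.1.exists_bdd
  obtain ⟨j, hj⟩ := q.concl.2.exists_bdd
  exact ⟨max n (max i j), fun p hp => ⟨(hn p hp).1.mono (by omega), (hn p hp).2.mono (by omega)⟩,
    hi.mono (by omega), hj.mono (by omega)⟩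

theorem set_bdd {S : Set QuasiId} (hS : S.Finite) : ∃ n, ∀ q ∈ S, q.Bdd n := by
  induction S, hS using Set.Finite.induction_on with
  | empty => exact ⟨0, by simp⟩
  | @insert a s _ _ ih =>
    obtain ⟨n, hn⟩ := ih
    obtain ⟨m, hm⟩ := a.exists_bdd
    refine ⟨max n m, ?_⟩
    intro q hq
    rcases Set.mem_insert_iff.1 hq with rfl | hq
    · exact hm.mono (by omega)
    · exact (hn q hq).mono (by omega)

theorem Term.eval_congr {R : Type} [NonUnitalNonAssocRing R] {n : ℕ} {v w : ℕ → R}
    (h : ∀ i < n, v i = w i) {t : Term} (ht : t.Bdd n) : t.eval v = t.eval w := by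
  induction t with
  | var i => exact h i ht
  | zero => rfl
  | neg t ih => simp only [Term.eval]; rw [ih ht]
  | add s t ihs iht => simp only [Term.eval]; rw [ihs ht.1, iht ht.2]
  | mul s t ihs iht => simp only [Term.eval]; rw [ihs ht.1, iht ht.2]

/-! ## Rings from bilinear maps -/

/-- The ring on `V × W` with product `(u,w)(u',w') = (0, β u u')`. -/
def Ext {V W : Type} [AddCommGroup V] [AddCommGroup W] (β : V →+ V →+ W) : Type := V × W

section
variable {V W : Type} [AddCommGroup V] [AddCommGroup W] (β : V →+ V →+ W)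

instance : AddCommGroup (Ext β) := inferInstanceAs (AddCommGroup (V × W))

instance : Mul (Ext β) := ⟨fun a b => ((0 : V), β a.1 b.1)⟩

theorem Ext.mul_def (a b : Ext β) : a * b = (((0 : V), β a.1 b.1) : V × W) := rfl

instance : NonUnitalNonAssocRing (Ext β) :=
  { (inferInstance : AddCommGroup (Ext β)), (inferInstance : Mul (Ext β)) with
    left_distrib := by
      intro a b c
      show (((0 : V), β a.1 (b.1 + c.1)) : V × W) = ((0 : V) + 0, β a.1 b.1 + β a.1 c.1)
      simp
    right_distrib := by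
      intro a b c
      show (((0 : V), β (a.1 + b.1) c.1) : V × W) = ((0 : V) + 0, β a.1 c.1 + β b.1 c.1)
      simp
    zero_mul := by
      intro a
      show (((0 : V), β 0 a.1) : V × W) = (0, 0)
      simp
    mul_zero := by
      intro a
      show (((0 : V), β a.1 0) : V × W) = (0, 0)
      simp }

@[simp] theorem Ext.zero_fst : ((0 : Ext β) : V × W).1 = 0 := rfl
@[simp] theorem Ext.zero_snd : ((0 : Ext β) : V × W).2 = 0 := rfl

end

/-- The four-element ring: `ZMod 2 × ZMod 2` with product `(a,b)(c,d) = (0, ac)`. -/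
abbrev A : Type := Ext (AddMonoidHom.mul : ZMod 2 →+ ZMod 2 →+ ZMod 2)

/-! ## The rings `B F` -/

section
variable (F : Type) [Field F] [Algebra (ZMod 2) F]

/-- `l ↦ ((x,y) ↦ l (x y))` -/
def kmap : Module.Dual (ZMod 2) F →ₗ[ZMod 2] ((F × F) → ZMod 2) where
  toFun l := fun p => l (p.1 * p.2)
  map_add' := by intro a b; rfl
  map_smul' := by intro a b; rfl

def K : Submodule (ZMod 2) ((F × F) → ZMod 2) := LinearMap.range (kmap F)

/-- product of functionals modulo `K` -/
def beta : Module.Dual (ZMod 2) (F × F) →+ Module.Dual (ZMod 2) (F × F) →+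
    (((F × F) → ZMod 2) ⧸ K F) :=
  AddMonoidHom.mk' (fun u => AddMonoidHom.mk' (fun v => (K F).mkQ (fun p => u p * v p))
    (by
      intro a b
      rw [← map_add]
      congr 1
      funext p
      simp [mul_add]))
    (by
      intro a b
      ext v
      show (K F).mkQ (fun p => (a + b) p * v p) =
        (K F).mkQ (fun p => a p * v p) + (K F).mkQ (fun p => b p * v p)
      rw [← map_add]
      congr 1
      funext p
      simp [add_mul])

theorem beta_apply (u v : Module.Dual (ZMod 2) (F × F)) :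
    beta F u v = (K F).mkQ (fun p => u p * v p) := rfl

/-- functions with period `r` -/
def Per (r : F × F) : Submodule (ZMod 2) ((F × F) → ZMod 2) where
  carrier := {f | ∀ p, f (p + r) = f p}
  add_mem' := by
    intro a b ha hb p
    simp only [Set.mem_setOf_eq] at ha hb
    simp [ha p, hb p]
  zero_mem' := by intro p; rfl
  smul_mem' := by
    intro c a ha p
    simp only [Set.mem_setOf_eq] at ha
    simp [ha p]

theorem disj {r : F × F} (hr : r ≠ 0) : Disjoint (Per F r) (K F) := by
  rw [Submodule.disjoint_def]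
  rintro f hf ⟨l, rfl⟩
  have h : ∀ x y : F, l ((x + r.1) * (y + r.2)) = l (x * y) := fun x y => hf (x, y)
  have h0 : l (r.1 * r.2) = 0 := by simpa using h 0 0
  have hx : ∀ x, l (x * r.2) = 0 := by
    intro x
    have := h x 0
    simp only [zero_add, mul_zero, map_zero, add_mul, map_add, h0, add_zero] at this
    exact this
  have hy : ∀ y, l (r.1 * y) = 0 := by
    intro y
    have := h 0 y
    simp only [zero_add, zero_mul, map_zero, mul_add, map_add, h0, add_zero] at this
    exact this
  have hl : l = 0 := by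
    by_cases h1 : r.1 = 0
    · have h2 : r.2 ≠ 0 := fun h2 => hr (Prod.ext h1 h2)
      ext x
      have := hx (x * r.2⁻¹)
      rwa [mul_assoc, inv_mul_cancel₀ h2, mul_one] at this
    · ext y
      have := hy (r.1⁻¹ * y)
      rwa [← mul_assoc, mul_inv_cancel₀ h1, one_mul] at this
  rw [hl, map_zero]

theorem holds_of_bdd [Finite F] {n : ℕ} (hn : 2 ^ n < Nat.card (F × F)) (q : QuasiId)
    (hq : q.Bdd n) (hA : q.Holds A) : q.Holds (Ext (beta F)) := by
  intro v0 hv0
  -- a common zero of the first components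
  obtain ⟨r, hr, hrv⟩ : ∃ r : F × F, r ≠ 0 ∧ ∀ i < n, (v0 i).1 r = 0 := by
    let g : (F × F) → (Fin n → ZMod 2) := fun p i => (v0 i).1 p
    have hni : ¬ Function.Injective g := by
      intro hg
      have := Nat.card_le_card_of_injective g hg
      simp at this
      simp at hn
      omega
    rw [Function.Injective] at hni
    push Not at hni
    obtain ⟨a, b, hab, hne⟩ := hni
    refine ⟨a - b, sub_ne_zero.2 hne, ?_⟩
    intro i hi
    rw [map_sub, sub_eq_zero]
    exact congrFun hab ⟨i, hi⟩
  -- replace the valuation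
  let v : ℕ → Ext (beta F) := fun i => if i < n then v0 i else 0
  have hvv : ∀ i < n, v0 i = v i := by
    intro i hi
    simp [v, hi]
  have hvr : ∀ i, (v i).1 r = 0 := by
    intro i
    by_cases hi : i < n
    · rw [← hvv i hi]; exact hrv i hi
    · simp [v, hi]
  obtain ⟨C, hC, hcompl⟩ := (disj F hr).exists_isCompl
  have hcompl' : IsCompl (K F) C := hcompl.symm
  let σ : (((F × F) → ZMod 2) ⧸ K F) →ₗ[ZMod 2] ((F × F) → ZMod 2) :=
    C.subtype ∘ₗ ((K F).quotientEquivOfIsCompl C hcompl').toLinearMap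
  have hσinj : Function.Injective σ := by
    intro a b hab
    exact ((K F).quotientEquivOfIsCompl C hcompl').injective (Subtype.ext hab)
  have hσ : ∀ f ∈ Per F r, σ ((K F).mkQ f) = f := by
    intro f hf
    have := Submodule.quotientEquivOfIsCompl_apply_mk_right hcompl' ⟨f, hC hf⟩
    exact congrArg Subtype.val this
  -- evaluation
  let h : (F × F) → Ext (beta F) → A := fun p b => (b.1 p, σ b.2 p)
  have key : ∀ t : Term, (t.eval v).1 r = 0 ∧ ∀ p, h p (t.eval v) = t.eval (fun i => h p (v i)) := by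
    intro t
    induction t with
    | var i => exact ⟨hvr i, fun p => rfl⟩
    | zero =>
      refine ⟨rfl, fun p => ?_⟩
      show (((0 : Module.Dual (ZMod 2) (F × F)) p, σ 0 p) : ZMod 2 × ZMod 2) = (0, 0)
      simp
    | neg t ih =>
      refine ⟨?_, fun p => ?_⟩
      · show (- (t.eval v).1) r = 0
        rw [LinearMap.neg_apply, ih.1, neg_zero]
      · show (((- (t.eval v).1) p, σ (- (t.eval v).2) p) : ZMod 2 × ZMod 2) =
          - (t.eval (fun i => h p (v i)))
        rw [← ih.2 p]
        simp only [map_neg]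
        rfl
    | add s t ihs iht =>
      refine ⟨?_, fun p => ?_⟩
      · show ((s.eval v).1 + (t.eval v).1) r = 0
        rw [LinearMap.add_apply, ihs.1, iht.1, add_zero]
      · show ((((s.eval v).1 + (t.eval v).1) p, σ ((s.eval v).2 + (t.eval v).2) p)
            : ZMod 2 × ZMod 2) =
          (s.eval (fun i => h p (v i))) + (t.eval (fun i => h p (v i)))
        rw [← ihs.2 p, ← iht.2 p]
        simp only [map_add]
        rfl
    | mul s t ihs iht =>
      refine ⟨rfl, fun p => ?_⟩
      show (((0 : Module.Dual (ZMod 2) (F × F)) p,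
          σ ((K F).mkQ (fun p => (s.eval v).1 p * (t.eval v).1 p)) p) : ZMod 2 × ZMod 2) =
          (s.eval (fun i => h p (v i))) * (t.eval (fun i => h p (v i)))
      rw [← ihs.2 p, ← iht.2 p]
      rw [hσ]
      · rfl
      · intro p'
        show (s.eval v).1 (p' + r) * (t.eval v).1 (p' + r) = (s.eval v).1 p' * (t.eval v).1 p'
        rw [map_add, map_add, ihs.1, iht.1, add_zero, add_zero]
  -- conclusion
  have hconc : ∀ p, (q.concl.1.eval (fun i => h p (v i)) : A) =
      q.concl.2.eval (fun i => h p (v i)) := by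
    intro p
    apply hA
    intro e he
    rw [← (key e.1).2 p, ← (key e.2).2 p, ← Term.eval_congr hvv (hq.1 e he).1,
      ← Term.eval_congr hvv (hq.1 e he).2, hv0 e he]
  rw [Term.eval_congr hvv hq.2.1, Term.eval_congr hvv hq.2.2]
  have h1 : ∀ p, h p (q.concl.1.eval v) = h p (q.concl.2.eval v) := by
    intro p
    rw [(key q.concl.1).2 p, (key q.concl.2).2 p, hconc p]
  have h2 : ∀ p, (q.concl.1.eval v).1 p = (q.concl.2.eval v).1 p :=
    fun p => congrArg Prod.fst (h1 p)
  have h3 : ∀ p, σ (q.concl.1.eval v).2 p = σ (q.concl.2.eval v).2 p :=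
    fun p => congrArg Prod.snd (h1 p)
  exact Prod.ext (LinearMap.ext h2) (hσinj (funext h3))

end

/-! ## The diagram quasi-identity -/

section
variable {B : Type} [NonUnitalNonAssocRing B]

/-- premises: the addition and multiplication tables. -/
theorem diagram {B : Type} [NonUnitalNonAssocRing B] [Finite B] (z : B) (hz : z ≠ 0)
    (A : Type) [NonUnitalNonAssocRing A]
    (hkill : ∀ f : B → A, (∀ a b, f (a + b) = f a + f b) → (∀ a b, f (a * b) = f a * f b) →
      f z = 0) : ∃ q : QuasiId, q.Holds A ∧ ¬ q.Holds B := by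
  classical
  have := Fintype.ofFinite B
  let e : B ≃ Fin (Fintype.card B) := Fintype.equivFin B
  let X : B → Term := fun b => Term.var (e b : ℕ)
  let S1 : List (Term × Term) :=
    (Finset.univ : Finset (B × B)).toList.map (fun p => (X (p.1 + p.2), Term.add (X p.1) (X p.2)))
  let S2 : List (Term × Term) :=
    (Finset.univ : Finset (B × B)).toList.map (fun p => (X (p.1 * p.2), Term.mul (X p.1) (X p.2)))
  refine ⟨⟨S1 ++ S2, (X z, Term.zero)⟩, ?_, ?_⟩
  · intro v hv
    show v (e z) = 0
    apply hkill (fun b => v (e b))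
    · intro a b
      exact hv (X (a + b), Term.add (X a) (X b)) (List.mem_append_left _
        (List.mem_map.2 ⟨(a, b), by simp, rfl⟩))
    · intro a b
      exact hv (X (a * b), Term.mul (X a) (X b)) (List.mem_append_right _
        (List.mem_map.2 ⟨(a, b), by simp, rfl⟩))
  · intro h
    apply hz
    let v : ℕ → B := fun i => if hi : i < Fintype.card B then e.symm ⟨i, hi⟩ else 0
    have hv : ∀ b, v (e b) = b := by
      intro b
      simp [v]
    have := h v (by
      intro p hp
      rcases List.mem_append.1 hp with hp | hp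
      · obtain ⟨⟨a, b⟩, -, rfl⟩ := List.mem_map.1 hp
        show v (e (a + b)) = v (e a) + v (e b)
        rw [hv, hv, hv]
      · obtain ⟨⟨a, b⟩, -, rfl⟩ := List.mem_map.1 hp
        show v (e (a * b)) = v (e a) * v (e b)
        rw [hv, hv, hv])
    have h2 : v (e z) = 0 := this
    rwa [hv] at h2

end

section
variable (F : Type) [Field F] [Algebra (ZMod 2) F] [Finite F]

/-- `(x,y) ↦ c x` and `(x,y) ↦ d y` -/
def inl (c : Module.Dual (ZMod 2) F) : Module.Dual (ZMod 2) (F × F) :=
  c ∘ₗ LinearMap.fst (ZMod 2) F F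
def inr (c : Module.Dual (ZMod 2) F) : Module.Dual (ZMod 2) (F × F) :=
  c ∘ₗ LinearMap.snd (ZMod 2) F F

instance : Finite (Ext (beta F)) := by
  have h1 : Finite (Module.Dual (ZMod 2) (F × F)) :=
    Finite.of_injective (fun u : Module.Dual (ZMod 2) (F × F) => (u : F × F → ZMod 2))
      DFunLike.coe_injective
  have h2 : Finite (((F × F) → ZMod 2) ⧸ K F) := Quotient.finite _
  exact (inferInstance : Finite (Module.Dual (ZMod 2) (F × F) × (((F × F) → ZMod 2) ⧸ K F)))

theorem kill (c d : Module.Dual (ZMod 2) F) (f : Ext (beta F) → A)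
    (hadd : ∀ a b, f (a + b) = f a + f b) (hmul : ∀ a b, f (a * b) = f a * f b) :
    f (((0 : Module.Dual (ZMod 2) (F × F)), beta F (inl F c) (inr F d)) :
      Module.Dual (ZMod 2) (F × F) × (((F × F) → ZMod 2) ⧸ K F)) = 0 := by
  classical
  have hf0 : f 0 = 0 := by
    have := hadd 0 0
    rw [add_zero] at this
    exact left_eq_add.1 this
  let φ : Module.Dual (ZMod 2) (F × F) → Ext (beta F) := fun u => (u, 0)
  have hφ : ∀ u u', φ (u + u') = φ u + φ u' := by
    intro u u'
    show ((u + u', (0 : ((F × F) → ZMod 2) ⧸ K F)) : _ × _) = (u + u', 0 + 0)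
    rw [add_zero]
  let g0 : Module.Dual (ZMod 2) (F × F) →+ ZMod 2 := AddMonoidHom.mk' (fun u => (f (φ u)).1) (by
    intro u u'
    rw [hφ, hadd]
    rfl)
  let g : Module.Dual (ZMod 2) (Module.Dual (ZMod 2) (F × F)) := g0.toZModLinearMap 2
  obtain ⟨p, hp⟩ := (Module.evalEquiv (ZMod 2) (F × F)).surjective g
  have hg : ∀ u, (f (φ u)).1 = u p := by
    intro u
    have : g u = u p := by
      rw [← hp]
      rfl
    exact this
  have hprod : ∀ u u', f (((0 : Module.Dual (ZMod 2) (F × F)), beta F u u') :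
      Module.Dual (ZMod 2) (F × F) × (((F × F) → ZMod 2) ⧸ K F)) =
      (((0 : ZMod 2), u p * u' p) : ZMod 2 × ZMod 2) := by
    intro u u'
    have : f (φ u * φ u') = f (φ u) * f (φ u') := hmul _ _
    have h2 : f (φ u) * f (φ u') = (((0 : ZMod 2), (f (φ u)).1 * (f (φ u')).1) : ZMod 2 × ZMod 2) :=
      rfl
    rw [h2, hg, hg] at this
    exact this
  -- second components
  let ψ : (((F × F) → ZMod 2) ⧸ K F) →+ ZMod 2 := AddMonoidHom.mk' (fun w => (f ((0, w) :
      Module.Dual (ZMod 2) (F × F) × (((F × F) → ZMod 2) ⧸ K F))).2) (by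
    intro w w'
    have : ((0, w + w') : Module.Dual (ZMod 2) (F × F) × (((F × F) → ZMod 2) ⧸ K F)) =
      ((0 + 0, w + w') : Module.Dual (ZMod 2) (F × F) × (((F × F) → ZMod 2) ⧸ K F)) := by
        rw [add_zero]
    rw [this]
    have h2 := hadd ((0, w) : Module.Dual (ZMod 2) (F × F) × (((F × F) → ZMod 2) ⧸ K F))
      ((0, w') : Module.Dual (ZMod 2) (F × F) × (((F × F) → ZMod 2) ⧸ K F))
    exact congrArg Prod.snd h2)
  have hψ : ∀ u u', ψ (beta F u u') = u p * u' p := fun u u' => congrArg Prod.snd (hprod u u')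
  -- the relation: `l (x y) ∈ K`
  have hlam : ∀ l : Module.Dual (ZMod 2) F, l (p.1 * p.2) = 0 := by
    intro l
    let b := Module.finBasis (ZMod 2) F
    have hsum : ∑ i, beta F (inl F (b.coord i)) (inr F (l ∘ₗ (LinearMap.mulLeft (ZMod 2) (b i)))) = 0 := by
      simp only [beta_apply]
      rw [← map_sum]
      have : (∑ i, fun p' : F × F => (inl F (b.coord i)) p' *
          (inr F (l ∘ₗ (LinearMap.mulLeft (ZMod 2) (b i)))) p') = kmap F l := by
        funext p'
        rw [Finset.sum_apply]
        show ∑ i, (b.coord i) p'.1 * l (b i * p'.2) = l (p'.1 * p'.2)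
        conv_rhs => rw [← b.sum_repr p'.1]
        rw [Finset.sum_mul, map_sum]
        apply Finset.sum_congr rfl
        intro i _
        rw [smul_mul_assoc, map_smul]
        rfl
      rw [this]
      exact (Submodule.Quotient.mk_eq_zero _).2 ⟨l, rfl⟩
    have h2 := congrArg ψ hsum
    rw [map_sum, map_zero] at h2
    simp only [hψ] at h2
    rw [← h2]
    show l (p.1 * p.2) = ∑ i, (b.coord i) p.1 * l (b i * p.2)
    conv_lhs => rw [← b.sum_repr p.1]
    rw [Finset.sum_mul, map_sum]
    apply Finset.sum_congr rfl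
    intro i _
    rw [smul_mul_assoc, map_smul]
    rfl
  have hzero : p.1 * p.2 = 0 := (Module.forall_dual_apply_eq_zero_iff (ZMod 2) _).1 hlam
  rw [hprod]
  show (((0 : ZMod 2), c p.1 * d p.2) : ZMod 2 × ZMod 2) = (0, 0)
  rcases mul_eq_zero.1 hzero with h | h
  · rw [h, map_zero, zero_mul]
  · rw [h, map_zero, mul_zero]

theorem nonzero (hcard : 2 < Nat.card F) : ∃ c : Module.Dual (ZMod 2) F,
    beta F (inl F c) (inr F c) ≠ 0 := by
  obtain ⟨c, hc⟩ : ∃ c : Module.Dual (ZMod 2) F, c 1 ≠ 0 := by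
    by_contra hcon
    push Not at hcon
    exact one_ne_zero ((Module.forall_dual_apply_eq_zero_iff (ZMod 2) (1 : F)).1 hcon)
  refine ⟨c, fun h0 => ?_⟩
  rw [beta_apply] at h0
  obtain ⟨l, hl⟩ := (Submodule.Quotient.mk_eq_zero (K F)).1 h0
  have hl' : ∀ x y : F, l (x * y) = c x * c y := fun x y => congrFun hl (x, y)
  obtain ⟨x, hx, hcx⟩ : ∃ x : F, x ≠ 0 ∧ c x = 0 := by
    have hni : ¬ Function.Injective c := by
      intro hg
      have := Nat.card_le_card_of_injective c hg
      simp at this
      omega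
    rw [Function.Injective] at hni
    push Not at hni
    obtain ⟨a, b, hab, hne⟩ := hni
    exact ⟨a - b, sub_ne_zero.2 hne, by rw [map_sub, hab, sub_self]⟩
  have h1 := hl' x x⁻¹
  rw [mul_inv_cancel₀ hx, hcx, zero_mul] at h1
  have h2 := hl' 1 1
  rw [mul_one, h1] at h2
  exact hc (mul_self_eq_zero.1 h2.symm)

end

theorem not_hasFiniteBasis : ¬ HasFiniteBasis A := by
  rintro ⟨S, hfin, hS, hbasis⟩
  obtain ⟨n, hn⟩ := set_bdd hfin
  have : Fact (Nat.Prime 2) := ⟨Nat.prime_two⟩
  let F := GaloisField 2 (n + 2)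
  have hFcard : Nat.card F = 2 ^ (n + 2) := GaloisField.card 2 (n + 2) (by omega)
  have hcard : 2 ^ n < Nat.card (F × F) := by
    rw [Nat.card_prod, hFcard, ← pow_add]
    exact Nat.pow_lt_pow_right (by norm_num) (by omega)
  have hcard2 : 2 < Nat.card F := by
    rw [hFcard]
    calc 2 = 2 ^ 1 := rfl
      _ < 2 ^ (n + 2) := Nat.pow_lt_pow_right (by norm_num) (by omega)
  have hfinF : Finite F := inferInstance
  obtain ⟨c, hc⟩ := nonzero F hcard2
  obtain ⟨q, hqA, hqB⟩ := diagram (B := Ext (beta F)) (((0 : Module.Dual (ZMod 2) (F × F)),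
      beta F (inl F c) (inr F c)) : Module.Dual (ZMod 2) (F × F) × (((F × F) → ZMod 2) ⧸ K F))
      (fun h => hc (congrArg Prod.snd h)) A (fun f h1 h2 => kill F c c f h1 h2)
  exact hqB (hbasis (Ext (beta F)) (fun q hq => holds_of_bdd F hcard q (hn q hq) (hS q hq)) q hqA)

/-- There is a ring with four elements which is commutative and associative (with `xyz = 0`),
hence alternative and Jordan, and which has no finite basis of quasi-identities. -/
theorem result : ∃ (A : Type) (_ : NonUnitalNonAssocRing A),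
    Nat.card A = 4 ∧
    (∀ x y : A, (x * x) * y = x * (x * y) ∧ (y * x) * x = y * (x * x)) ∧
    (∀ x y : A, x * y = y * x ∧ ((x * x) * y) * x = (x * x) * (y * x)) ∧
    (∀ x y z : A, (x * y) * z = 0 ∧ x * (y * z) = 0) ∧
    ¬ HasFiniteBasis A := by
  have h3 : ∀ x y z : A, (x * y) * z = 0 ∧ x * (y * z) = 0 := by
    intro x y z
    refine ⟨?_, ?_⟩
    · show (((0 : ZMod 2), (0 : ZMod 2) * z.1) : ZMod 2 × ZMod 2) = (0, 0)
      rw [zero_mul]
    · show (((0 : ZMod 2), x.1 * (0 : ZMod 2)) : ZMod 2 × ZMod 2) = (0, 0)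
      rw [mul_zero]
  refine ⟨A, inferInstance, ?_, ?_, ?_, h3, not_hasFiniteBasis⟩
  · show Nat.card (ZMod 2 × ZMod 2) = 4
    simp
  · intro x y
    rw [(h3 x x y).1, (h3 x x y).2, (h3 y x x).1, (h3 y x x).2]
    exact ⟨rfl, rfl⟩
  · intro x y
    refine ⟨?_, ?_⟩
    · show (((0 : ZMod 2), x.1 * y.1) : ZMod 2 × ZMod 2) = (0, y.1 * x.1)
      rw [mul_comm]
    · rw [(h3 (x * x) y x).1, (h3 x x (y * x)).1]

end Pool.Agent.Results.MP_db5ef1_al.NoFiniteBasis
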